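import Mathlib
import Pool.Agent.H15.MO1

set_option autoImplicit false

namespace Pool.Agent.Results.MP_9a43b6_co.Select

/-- the nonempty sublattices of `T` -/
def Sub (T : Type) [Lattice T] : Type := {S : Set T // S.Nonempty ∧ IsSublattice S}

/-- the monotone selection property -/
def MonotoneSelection (T : Type) [Lattice T] : Prop :=
  ∃ φ : Sub T → T, (∀ S : Sub T, φ S ∈ S.1) ∧
    ∀ S S' : Sub T, (∀ x ∈ S.1, ∀ x' ∈ S'.1, x ⊓ x' ∈ S.1 ∧ x ⊔ x' ∈ S'.1) → φ S ≤ φ S'

theorem result (T : Type) [BooleanAlgebra T] (C : Set T) (hC : IsChain (· ≤ ·) C)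
    (hg : BooleanSubalgebra.closure C = ⊤) : MonotoneSelection T :=
  Pool.Agent.H15.MO.main C hC hg

end Pool.Agent.Results.MP_9a43b6_co.Select
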